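import Mathlib
import Pool.Agent.Helper18.NF.Stmts

/-! Module PLV of MP_8312c9_nt: the rational map and places. -/

set_option autoImplicit false

namespace Pool.Agent.Helper18.NF

open Pool.Agent.Helper14.BSC Polynomial

section

variable {k Ω : Type} [Field k] [Field Ω] [Algebra k Ω] {D : Sec k Ω} {p : ℕ} [Fact p.Prime]
  {σ : k →+* ℂ_[p]} {P : Place D p σ}

theorem plv_poly {x : LL D} {z : ℂ_[p]} (h : fin_Val P x z) (G : k[X]) :
    fin_Val P (aeval x G) ((G.map σ).eval z) := by
  induction G using Polynomial.induction_on' with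
  | add F G hF hG =>
    rw [map_add, Polynomial.map_add, Polynomial.eval_add]
    exact fin_add hF hG
  | monomial n a =>
    rw [Polynomial.aeval_monomial, Polynomial.map_monomial, Polynomial.eval_monomial]
    refine fin_mul (fin_const P a) ?_
    induction n with
    | zero =>
      rw [pow_zero, pow_zero]
      have := fin_const P (1 : k)
      rwa [map_one, map_one] at this
    | succ n ih => rw [pow_succ, pow_succ]; exact fin_mul ih h

theorem plv_pow {x : LL D} {z : ℂ_[p]} (h : fin_Val P x z) (n : ℕ) : fin_Val P (x ^ n) (z ^ n) := by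
  induction n with
  | zero =>
    rw [pow_zero, pow_zero]
    have := fin_const P (1 : k)
    rwa [map_one, map_one] at this
  | succ n ih => rw [pow_succ, pow_succ]; exact fin_mul ih h

theorem plv_lead {x : LL D} (hx : x ∉ P.C) (G : k[X]) :
    fin_Val P (aeval x G / x ^ G.natDegree) (σ G.leadingCoeff) := by
  have hx0 : x ≠ 0 := by
    rintro rfl
    exact hx P.C.zero_mem
  have h1 := plv_poly (fin_inf hx) G.reverse
  rw [← Polynomial.coeff_zero_eq_eval_zero, Polynomial.coeff_map,
    Polynomial.coeff_zero_reverse] at h1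
  have h2 : aeval x G / x ^ G.natDegree = aeval x⁻¹ G.reverse := by
    have : Invertible x := invertibleOfNonzero hx0
    have h3 := Polynomial.eval₂_reverse_mul_pow (algebraMap k (LL D)) x G
    rw [invOf_eq_inv] at h3
    rw [Polynomial.aeval_def, Polynomial.aeval_def, ← h3]
    field_simp
  rw [h2]
  exact h1

end

theorem st_PLV (hD : ST_DLB) : ST_PLV := by
  intro k Ω _ _ _ _ _ D A B hAB p _ σ P x hx
  have hB0 : B ≠ 0 := by
    rintro rfl
    have := hAB.pos
    simp at this
  have hA0 : A ≠ 0 := by
    rintro rfl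
    have := hAB.deg
    simp at this
  have hBx : aeval x B ≠ 0 := (hD k Ω D).1 x hx B hB0
  refine ⟨fun G z h => plv_poly h G, ?_, ?_, ?_⟩
  · intro z h hz
    exact fin_div (plv_poly h A) (plv_poly h B) hz
  · intro z h hz hC
    obtain ⟨U, V, hUV⟩ := hAB.cop
    have h1 : (A.map σ).eval z ≠ 0 := by
      intro h2
      have h3 := congrArg (fun F : k[X] => (F.map σ).eval z) hUV
      simp only [Polynomial.map_add, Polynomial.map_mul, Polynomial.eval_add, Polynomial.eval_mul,
        h2, hz, mul_zero, add_zero, Polynomial.map_one, Polynomial.eval_one] at h3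
      exact zero_ne_one h3
    have h4 : fin_Val P (dl A B x) (P.φ ⟨dl A B x, hC⟩) := ⟨hC, rfl⟩
    have h5 := fin_mul h4 (plv_poly h B)
    rw [hz, mul_zero] at h5
    have h6 : dl A B x * aeval x B = aeval x A := div_mul_cancel₀ _ hBx
    rw [h6] at h5
    exact h1 (fin_uniq (plv_poly h A) h5)
  · intro hxC
    have hx0 : x ≠ 0 := by
      rintro rfl
      exact hxC P.C.zero_mem
    have hlB : σ B.leadingCoeff ≠ 0 := by
      rw [Ne, map_eq_zero]; exact Polynomial.leadingCoeff_ne_zero.mpr hB0
    have hlA : σ A.leadingCoeff ≠ 0 := by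
      rw [Ne, map_eq_zero]; exact Polynomial.leadingCoeff_ne_zero.mpr hA0
    have h1 := plv_lead hxC A
    have h2 := plv_lead hxC B
    rw [hAB.deg] at h1
    have h3 := fin_div h1 h2 hlB
    have e1 : aeval x A / x ^ (B.natDegree + 1) / (aeval x B / x ^ B.natDegree) = dl A B x / x := by
      rw [dl]
      field_simp
      ring
    rw [e1] at h3
    have hmu : σ A.leadingCoeff / σ B.leadingCoeff ≠ 0 := div_ne_zero hlA hlB
    have hdx : dl A B x ≠ 0 := by
      intro h4
      rw [h4, zero_div] at h3
      have h5 := fin_const P (0 : k)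
      rw [map_zero, map_zero] at h5
      exact hmu (fin_uniq h3 h5)
    have hdC : dl A B x ∉ P.C := by
      intro hC
      have h4 : fin_Val P (dl A B x) (P.φ ⟨dl A B x, hC⟩) := ⟨hC, rfl⟩
      have h5 := fin_div h4 h3 hmu
      have e2 : dl A B x / (dl A B x / x) = x := by field_simp
      rw [e2] at h5
      exact hxC h5.1
    refine ⟨hdC, ?_⟩
    have h6 := plv_lead hdC B
    have h7 := fin_mul (fin_div h6 h2 hlB) (plv_pow h3 B.natDegree)
    rw [div_self hlB, one_mul] at h7
    have e3 : aeval (dl A B x) B / dl A B x ^ B.natDegree / (aeval x B / x ^ B.natDegree) *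
        (dl A B x / x) ^ B.natDegree = aeval (dl A B x) B / aeval x B := by
      rw [div_pow]
      field_simp
    rw [e3] at h7
    rw [map_div₀]
    exact h7

end Pool.Agent.Helper18.NF
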